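import Pool.Agent.Lib.MP_610fe3_an.TC.Spec
import Pool.Agent.Lib.MP_610fe3_an.TD.Lim

/-!
# Tame continua: limits
-/

open Set Filter Function
open scoped Topology

namespace Pool.Agent.Lib.MP610fe3.TC

open TM N3

universe u

namespace LimC

open TD.LimM

variable {X : Type u} [MetricSpace X] [CompactSpace X]

theorem exists_ulim (F : Ultrafilter ℕ) (z : ℕ → X) : ∃ y, Tendsto z F (𝓝 y) := by
  have h4 := isCompact_univ.ultrafilter_le_nhds (F.map z) (by simp)
  obtain ⟨y, -, hy⟩ := h4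
  exact ⟨y, hy⟩

omit [CompactSpace X] in
/-- Points of the limit of compact sets are limits of points of the sets. -/
theorem exists_seq {F : Filter ℕ} {S : ℕ → Set X} (hS : ∀ n, (S n).Nonempty)
    (hc : ∀ n, IsCompact (S n)) {y : X} (hy : y ∈ Lst F S) :
    ∃ p : ℕ → X, (∀ n, p n ∈ S n) ∧ Tendsto p F (𝓝 y) := by
  have h1 : ∀ n, ∃ p ∈ S n, Metric.infDist y (S n) = dist y p := fun n =>
    (hc n).exists_infDist_eq_dist (hS n) y
  choose p hp hd using h1
  refine ⟨p, hp, Metric.tendsto_nhds.2 fun ε hε => ?_⟩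
  filter_upwards [hy ε hε] with n hn
  obtain ⟨q, hq, hqy⟩ := hn
  rw [dist_comm, ← hd n]
  refine (Metric.infDist_le_dist_of_mem hq).trans_lt ?_
  rwa [dist_comm]

/-- The limit of connected sets is connected. -/
theorem conn_lst (F : Ultrafilter ℕ) {S : ℕ → Set X} (hS : ∀ n, IsConnected (S n)) :
    IsConnected (Lst F S) := by
  refine ⟨?_, ?_⟩
  · choose p hp using fun n => (hS n).nonempty
    obtain ⟨y, hy⟩ := exists_ulim F p
    exact ⟨y, lim_mem (Eventually.of_forall hp) hy⟩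
  · rw [isPreconnected_iff_subset_of_fully_disjoint_closed (isClosed_lst _ _)]
    intro u v hu hv huv hd
    by_contra hnot
    push Not at hnot
    obtain ⟨hnu, hnv⟩ := hnot
    obtain ⟨y1, hy1, hy1u⟩ := Set.not_subset.1 hnu
    obtain ⟨y2, hy2, hy2v⟩ := Set.not_subset.1 hnv
    have hy1v : y1 ∈ v := (huv hy1).resolve_left hy1u
    have hy2u : y2 ∈ u := (huv hy2).resolve_right hy2v
    obtain ⟨δ, hδ, hdis⟩ := hd.exists_thickenings hu.isCompact hv
    have h1 := sub_of_open F (S := S)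
      ((Metric.isOpen_thickening (δ := δ) (E := u)).union
        (Metric.isOpen_thickening (δ := δ) (E := v)))
      (huv.trans (Set.union_subset_union (Metric.self_subset_thickening hδ _)
        (Metric.self_subset_thickening hδ _)))
    obtain ⟨n, ⟨h1n, p1, hp1, hd1⟩, p2, hp2, hd2⟩ := ((h1.and (hy1 δ hδ)).and (hy2 δ hδ)).exists
    have hp1v : p1 ∈ Metric.thickening δ v := Metric.mem_thickening_iff.2 ⟨y1, hy1v, hd1⟩
    have hp2u : p2 ∈ Metric.thickening δ u := Metric.mem_thickening_iff.2 ⟨y2, hy2u, hd2⟩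
    have h2 := (hS n).isPreconnected.subset_left_of_subset_union Metric.isOpen_thickening
      Metric.isOpen_thickening hdis h1n ⟨p2, hp2, hp2u⟩
    exact Set.disjoint_left.1 hdis (h2 hp1) hp1v

variable {f : X ≃ₜ X} {U : Set X} {e C a : ℝ}

omit [CompactSpace X] in
theorem mem_lim {g : X ≃ₜ X} {F : Ultrafilter ℕ} {ε : ℝ} {x y : ℕ → X} {x₀ y₀ : X}
    (hx : Tendsto x F (𝓝 x₀)) (hy : Tendsto y F (𝓝 y₀))
    (h : ∀ᶠ n in (F : Filter ℕ), y n ∈ Sp g ε (x n)) : y₀ ∈ Sp g ε x₀ :=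
  (isClosed_rel g ε).mem_of_tendsto (hx.prodMk_nhds hy) h

/-- Continuity of the bracket with the next point of a stable chain. -/
theorem tendsto_br (R : Rates f U e C a a a) {h₁ h₂ : ℝ} (h₁₂ : h₂ < h₁) (h0 : 0 < h₂)
    (h4 : 4 * h₁ ≤ e) {br : X → X → X}
    (hbr : ∀ x y, dist x y < 2 * h₁ → br x y ∈ Sp f (e / 4) x ∧ br x y ∈ Sp f.symm (e / 4) y)
    {F : Ultrafilter ℕ} {z : ℕ → X} {w p : X} (hz : Tendsto z F (𝓝 w)) (hp : p ∈ Sp f h₂ w) :
    Tendsto (fun n => br (z n) p) F (𝓝 p) ∧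
      ∀ᶠ n in (F : Filter ℕ), br (z n) p ∈ Sp f h₁ (z n) := by
  have hC := R.C1
  have ha := R.a0
  have he := R.e0
  have hcl : ∀ᶠ n in (F : Filter ℕ), dist (z n) p < 2 * h₁ := by
    have h1 : Tendsto (fun n => dist (z n) p) F (𝓝 (dist w p)) := hz.dist tendsto_const_nhds
    have h2 : dist w p < 2 * h₁ := by
      have := Sp_dist hp
      rw [dist_comm] at this
      linarith
    exact (tendsto_order.1 h1).2 _ h2
  have hlim : Tendsto (fun n => br (z n) p) F (𝓝 p) := by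
    obtain ⟨z', hz'⟩ := exists_ulim F fun n => br (z n) p
    have h1 : z' ∈ Sp f (e / 4) w := mem_lim hz hz' (hcl.mono fun n hn => (hbr _ _ hn).1)
    have h2 : z' ∈ Sp f.symm (e / 4) p :=
      mem_lim tendsto_const_nhds hz' (hcl.mono fun n hn => (hbr _ _ hn).2)
    have h3 : z' = p := by
      refine EQ.uni R (Sp_mono (ε := h₂ + e / 4) (by linarith) ?_) (Sp_mono (by linarith) h2)
      exact Sp_trans (Sp_comm hp) h1
    rwa [h3] at hz'
  refine ⟨hlim, ?_⟩
  -- the tail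
  obtain ⟨J, hJ⟩ : ∃ J : ℕ, C * Real.exp (-(a * J)) * (e / 4) ≤ h₁ := by
    have h5 : Tendsto (fun n : ℕ => a * (n : ℝ)) atTop atTop :=
      Tendsto.const_mul_atTop ha tendsto_natCast_atTop_atTop
    have h6 := ((Real.tendsto_exp_neg_atTop_nhds_zero.comp h5).const_mul C).mul_const (e / 4)
    rw [mul_zero, zero_mul] at h6
    have h7 := (tendsto_order.1 h6).2 h₁ (h0.trans h₁₂)
    obtain ⟨J, hJ⟩ := h7.exists
    exact ⟨J, hJ.le⟩
  have hfin : ∀ᶠ n in (F : Filter ℕ), ∀ j ∈ Finset.range J,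
      dist (ev f j (br (z n) p)) (ev f j (z n)) < h₁ := by
    rw [Filter.eventually_all_finset]
    intro j _
    have h1 : Tendsto (fun n => dist (ev f j (br (z n) p)) (ev f j (z n))) F
        (𝓝 (dist (ev f j p) (ev f j w))) :=
      (((continuous_ev _).tendsto p).comp hlim).dist (((continuous_ev _).tendsto w).comp hz)
    exact (tendsto_order.1 h1).2 _ ((hp j).trans_lt h₁₂)
  filter_upwards [hfin, hcl] with n h1 h2 j
  rcases lt_or_ge j J with hj | hj
  · exact (h1 j (Finset.mem_range.2 hj)).le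
  · have h3 := (hbr _ _ h2).1
    have h4 := R.st _ _ (Sp_mono (by linarith) h3) j
    have h5 := Sp_dist h3
    have h6 : Real.exp (-(a * j)) ≤ Real.exp (-(a * J)) := by
      apply Real.exp_le_exp.2
      have : (J : ℝ) ≤ j := by exact_mod_cast hj
      nlinarith
    calc _ ≤ C * Real.exp (-(a * j)) * dist (br (z n) p) (z n) := h4
      _ ≤ C * Real.exp (-(a * J)) * (e / 4) := by gcongr
      _ ≤ h₁ := hJ

end LimC

open LimC TD.LimM in
/-- LIM. -/
theorem specLim : SpecLim.{u} := by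
  classical
  intro X _ _ f U S e C a c E₀ E₁ h₁ h₂ h' k R hS hc h20 h21 h1e hE0 hE1 hh' hbr hK
  choose K hCl hTm using hK
  choose br hbr using fun (x y : X) => (show ∃ z, dist x y < 2 * h₁ →
      z ∈ Sp f (e / 4) x ∧ z ∈ Sp f.symm (e / 4) y by
    by_cases h : dist x y < 2 * h₁
    · obtain ⟨z, hz⟩ := hbr x y h
      exact ⟨z, fun _ => hz⟩
    · exact ⟨x, fun h' => absurd h' h⟩)
  obtain ⟨F, hF⟩ := Ultrafilter.exists_le (atTop : Filter ℕ)
  have hne : ∀ n, (K n).Nonempty := fun n => (hCl n).conn.nonempty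
  have hseq : ∀ y ∈ Lst F K, ∃ p : ℕ → X, (∀ n, p n ∈ K n) ∧ Tendsto p F (𝓝 y) := fun y hy =>
    exists_seq hne (fun n => (hCl n).cpt) hy
  refine ⟨Lst F K, ⟨(isClosed_lst _ _).isCompact, conn_lst F fun n => (hCl n).conn, ?_, ?_, ?_⟩,
    ?_⟩
  · intro y hy
    obtain ⟨p, hp, hpy⟩ := hseq y hy
    exact hS.mem_of_tendsto hpy (Eventually.of_forall fun n => (hCl n).sub (hp n))
  · intro x hx y hy
    obtain ⟨p, hp, hpx⟩ := hseq x hx
    obtain ⟨q, hq, hqy⟩ := hseq y hy
    exact mem_lim hpx hqy (Eventually.of_forall fun n => (hCl n).sz _ (hp n) _ (hq n))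
  · choose x hx y hy hxy using fun n => (hCl n).big
    obtain ⟨x₀, hx₀⟩ := exists_ulim F x
    obtain ⟨y₀, hy₀⟩ := exists_ulim F y
    refine ⟨x₀, lim_mem (Eventually.of_forall hx) hx₀, y₀, lim_mem (Eventually.of_forall hy) hy₀,
      ?_⟩
    exact ge_of_tendsto (hx₀.dist hy₀) (Eventually.of_forall hxy)
  · intro L m hm p hp0 hp y hy
    obtain ⟨x', hx', hx'p⟩ := hp0
    obtain ⟨y', hy', rfl⟩ := hy
    obtain ⟨x, hx, hxx⟩ := hseq x' hx'
    obtain ⟨z, hz, hzy⟩ := hseq y' hy'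
    set P : ℕ → ℕ → X := fun n i => Nat.rec (ev f (-(k : ℤ)) (x n)) (fun i w => br w (p (i + 1))) i
      with hP
    have hP0 : ∀ n, P n 0 = ev f (-(k : ℤ)) (x n) := fun n => rfl
    have hPs : ∀ n i, P n (i + 1) = br (P n i) (p (i + 1)) := fun n i => rfl
    have hlim : ∀ i ≤ m, Tendsto (fun n => P n i) F (𝓝 (p i)) := by
      intro i
      induction i with
      | zero =>
        intro _
        simp only [hP0]
        rw [← hx'p]
        exact ((continuous_ev _).tendsto x').comp hxx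
      | succ i ih =>
        intro hi
        simp only [hPs]
        exact (tendsto_br R h21 h20 h1e hbr (ih (by omega)) (hp i (by omega))).1
    have hchain : ∀ᶠ n in (F : Filter ℕ), ∀ i ∈ Finset.range m, P n (i + 1) ∈ Sp f h₁ (P n i) := by
      rw [Filter.eventually_all_finset]
      intro i hi
      have hi' := Finset.mem_range.1 hi
      simp only [hPs]
      exact (tendsto_br R h21 h20 h1e hbr (hlim i hi'.le) (hp i hi')).2
    have hex : ∀ n, ∃ q : ℕ → X, (m ≤ n ∧ ∀ i ∈ Finset.range m, P n (i + 1) ∈ Sp f h₁ (P n i)) →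
        q 0 = ev f (-(k : ℤ)) (z n) ∧ Lift f E₁ h' m (P n) q := by
      intro n
      by_cases hn : m ≤ n ∧ ∀ i ∈ Finset.range m, P n (i + 1) ∈ Sp f h₁ (P n i)
      · obtain ⟨q, hq⟩ := hTm n m hn.1 (P n) ⟨x n, hx n, (hP0 n).symm⟩
          (fun i hi => hn.2 i (Finset.mem_range.2 hi)) (ev f (-(k : ℤ)) (z n)) ⟨z n, hz n, rfl⟩
        exact ⟨q, fun _ => hq⟩
      · exact ⟨fun _ => x n, fun h => absurd h hn⟩
    choose Q hQ using hex
    have hev : ∀ᶠ n in (F : Filter ℕ), Q n 0 = ev f (-(k : ℤ)) (z n) ∧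
        Lift f E₁ h' m (P n) (Q n) := by
      filter_upwards [hchain, hF (eventually_ge_atTop m)] with n h1 h2
      exact hQ n ⟨h2, h1⟩
    choose q hq using fun i => exists_ulim F fun n => Q n i
    refine ⟨q, ?_, fun i hi => ?_, fun i hi => ?_⟩
    · have h1 : Tendsto (fun n => ev f (-(k : ℤ)) (z n)) F (𝓝 (ev f (-(k : ℤ)) y')) :=
        ((continuous_ev _).tendsto y').comp hzy
      refine tendsto_nhds_unique (hq 0) (h1.congr' ?_)
      filter_upwards [hev] with n hn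
      exact hn.1.symm
    · exact mem_lim (hlim i hi) (hq i) (hev.mono fun n hn => hn.2.1 i hi)
    · exact mem_lim (hq i) (hq (i + 1)) (hev.mono fun n hn => hn.2.2 i hi)

end Pool.Agent.Lib.MP610fe3.TC
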