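import Pool.Agent.Lib.MP_610fe3_an.TC.Spec

/-!
# No infinite chain of continua
-/

open Set Filter Function
open scoped Topology

namespace Pool.Agent.Lib.MP610fe3.TC

open TM N3 EQ

universe u

variable {X : Type u} [MetricSpace X] {f : X ≃ₜ X} {U : Set X} {e C a E₁ h' s η δ ρ τ : ℝ}

/-- Contraction of stable plaques. -/
theorem st_contr (R : Rates f U e C a a a) {x y : X} {ε : ℝ} (he : ε ≤ e) (h : y ∈ Sp f ε x)
    (N : ℕ) : ev f N y ∈ Sp f (C * Real.exp (-(a * N)) * ε) (ev f N x) := by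
  have hC := R.C1
  have ha := R.a0
  intro j
  rw [← ev_add, ← ev_add, show (j : ℤ) + (N : ℤ) = ((j + N : ℕ) : ℤ) by push_cast; ring]
  have h1 := R.st _ _ (Sp_mono he h) (j + N)
  have h2 : dist y x ≤ ε := Sp_dist h
  have h3 : Real.exp (-(a * ((j + N : ℕ) : ℝ))) ≤ Real.exp (-(a * N)) := by
    apply Real.exp_le_exp.2
    push_cast
    have : 0 ≤ a * (j : ℝ) := by positivity
    linarith
  have h4 : (0 : ℝ) ≤ dist y x := dist_nonneg
  calc _ ≤ C * Real.exp (-(a * ((j + N : ℕ) : ℝ))) * dist y x := h1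
    _ ≤ C * Real.exp (-(a * N)) * ε := by gcongr

/-- One elementary step. -/
theorem step (R : Rates f U e C a a a)
    (hbr : ∀ x y, dist x y < δ → ∃ v, v ∈ Sp f s x ∧ v ∈ Sp f.symm s y)
    (h1 : η + s ≤ e) (h2 : s + 2 * E₁ ≤ e) (h3 : 2 * s + 2 * h' ≤ e)
    {N : ℕ} {W₀ z z' w w' : X} (hzz : z' ∈ Sp f h' z) (hww : w' ∈ Sp f h' w)
    (hzw : w' ∈ Sp f.symm (2 * E₁) z') (hW' : ev f N w' ∈ Sp f η W₀)
    (hd : dist W₀ (ev f N z') < δ) (hZW : ev f N w ∈ Sp f.symm s (ev f N z)) :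
    ev f N w' ∈ Sp f.symm s (ev f N z') := by
  obtain ⟨v, hv1, hv2⟩ := hbr _ _ hd
  have key : v = ev f N w' := by
    apply uni R (x := ev f N w')
    · exact Sp_mono h1 (Sp_trans (Sp_comm hW') hv1)
    · rw [mem_Sp_symm]
      intro j
      have h4 := mem_Sp_symm.1 hv2 j
      rcases le_or_gt N j with hj | hj
      · obtain ⟨t, rfl⟩ := Nat.exists_eq_add_of_le hj
        have e1 : ∀ x : X, ev f (-((N + t : ℕ) : ℤ)) (ev f N x) = ev f (-(t : ℤ)) x := by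
          intro x
          rw [← ev_add]
          congr 1
          push_cast
          ring
        rw [e1] at h4 ⊢
        have h5 := mem_Sp_symm.1 hzw t
        have h6 := dist_triangle_right (ev f (-((N + t : ℕ) : ℤ)) v) (ev f (-(t : ℤ)) w')
          (ev f (-(t : ℤ)) z')
        linarith
      · obtain ⟨t, ht⟩ := Nat.exists_eq_add_of_le hj.le
        have e1 : ∀ x : X, ev f (-(j : ℤ)) (ev f N x) = ev f t x := by
          intro x
          rw [← ev_add]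
          congr 1
          omega
        have h6 := mem_Sp_symm.1 hZW j
        rw [e1] at h4 h6 ⊢
        rw [e1] at h6
        have h7 := hzz t
        have h8 := hww t
        have h10 := dist_triangle_right (ev f (-(j : ℤ)) v) (ev f t w') (ev f t z')
        have h11 := dist_triangle4 (ev f t w') (ev f t w) (ev f t z) (ev f t z')
        rw [dist_comm (ev f t z) (ev f t z')] at h11
        linarith
  rw [← key]
  exact hv2

/-- One level. -/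
theorem level (R : Rates f U e C a a a)
    (hbr : ∀ x y, dist x y < δ → ∃ v, v ∈ Sp f s x ∧ v ∈ Sp f.symm s y)
    (h1 : η + s ≤ e) (h2 : s + 2 * E₁ ≤ e) (h3 : 2 * s + 2 * h' ≤ e) (hh' : h' ≤ e)
    {m : ℕ} {p q r : ℕ → X} (hq : Lift f E₁ h' m p q) (hr : Lift f E₁ h' m p r) {N : ℕ}
    (hρ : C * Real.exp (-(a * N)) * h' ≤ ρ) (hρ0 : 0 ≤ ρ) {Z₀ W₀ : X}
    (hZ : ev f N (q 0) ∈ Sp f τ Z₀) (hW : ev f N (r 0) ∈ Sp f τ W₀)
    (hZW : ev f N (r 0) ∈ Sp f.symm s (ev f N (q 0)))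
    (hd : dist W₀ Z₀ + η < δ) (hτ : τ + m * ρ ≤ η) :
    ∀ i ≤ m, ev f N (q i) ∈ Sp f (τ + i * ρ) Z₀ ∧ ev f N (r i) ∈ Sp f (τ + i * ρ) W₀ ∧
      ev f N (r i) ∈ Sp f.symm s (ev f N (q i)) := by
  intro i
  induction i with
  | zero =>
    intro _
    simpa using ⟨hZ, hW, hZW⟩
  | succ i ih =>
    intro hi
    obtain ⟨h4, h5, h6⟩ := ih (by omega)
    have h7 := hq.2 i (by omega)
    have h8 := hr.2 i (by omega)
    have h9 : τ + i * ρ + ρ = τ + ((i + 1 : ℕ) : ℝ) * ρ := by push_cast; ring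
    have h10 : ev f N (q (i + 1)) ∈ Sp f (τ + ((i + 1 : ℕ) : ℝ) * ρ) Z₀ := by
      rw [← h9]
      exact Sp_trans h4 (Sp_mono hρ (st_contr R hh' h7 N))
    have h11 : ev f N (r (i + 1)) ∈ Sp f (τ + ((i + 1 : ℕ) : ℝ) * ρ) W₀ := by
      rw [← h9]
      exact Sp_trans h5 (Sp_mono hρ (st_contr R hh' h8 N))
    have h12 : τ + ((i + 1 : ℕ) : ℝ) * ρ ≤ η := by
      refine le_trans ?_ hτ
      have : ((i + 1 : ℕ) : ℝ) ≤ m := by exact_mod_cast hi
      gcongr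
    refine ⟨h10, h11, step R hbr h1 h2 h3 h7 h8 ?_ (Sp_mono h12 h11) ?_ h6⟩
    · have := Sp_trans (Sp_comm (hq.1 (i + 1) hi)) (hr.1 (i + 1) hi)
      exact Sp_mono (by linarith) this
    · have h13 := Sp_dist (Sp_mono h12 h10)
      have h14 := dist_triangle_right W₀ (ev f N (q (i + 1))) Z₀
      linarith

/-- `z` is tracked back to `z₀`, `t` levels below. -/
def Trk (f : X ≃ₜ X) (E₁ h' : ℝ) (k : ℕ) (b : ℕ → Set X) (m : ℕ → ℕ) (p : ℕ → ℕ → X) (n₀ : ℕ) :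
    ℕ → X → X → Prop
  | 0, z, z₀ => z = z₀ ∧ z ∈ b n₀
  | t + 1, z, z₀ => ∃ q : ℕ → X, Trk f E₁ h' k b m p n₀ t (ev f k (q 0)) z₀ ∧
      Lift f E₁ h' (m (n₀ + t)) (p (n₀ + t)) q ∧ q (m (n₀ + t)) = z

variable {k L n₀ : ℕ} {b : ℕ → Set X} {m : ℕ → ℕ} {p : ℕ → ℕ → X}

theorem exists_trk (hb : ∀ n, ∀ z ∈ b (n + 1), ∃ q : ℕ → X,
      ev f k (q 0) ∈ b n ∧ Lift f E₁ h' (m n) (p n) q ∧ q (m n) = z) (t : ℕ) :
    ∀ z ∈ b (n₀ + t), ∃ z₀ ∈ b n₀, Trk f E₁ h' k b m p n₀ t z z₀ := by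
  induction t with
  | zero => exact fun z hz => ⟨z, hz, rfl, hz⟩
  | succ t ih =>
    intro z hz
    obtain ⟨q, h1, h2, h3⟩ := hb _ z hz
    obtain ⟨z₀, h4, h5⟩ := ih _ h1
    exact ⟨z₀, h4, q, h5, h2, h3⟩

theorem trk_close (R : Rates f U e C a a a)
    (hbr : ∀ x y, dist x y < δ → ∃ v, v ∈ Sp f s x ∧ v ∈ Sp f.symm s y)
    (h1 : η + s ≤ e) (h2 : s + 2 * E₁ ≤ e) (h3 : 2 * s + 2 * h' ≤ e) (hh' : h' ≤ e)
    (hh0 : 0 ≤ h') (hm : ∀ n, m n ≤ L)
    (hη : ∀ t : ℕ, ∑ i ∈ Finset.range t, (L : ℝ) *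
      (C * Real.exp (-(a * (((n₀ + i + 1) * k : ℕ) : ℝ))) * h') ≤ η) {z₀ w₀ : X}
    (hd : dist (ev f ((n₀ * k : ℕ) : ℤ) w₀) (ev f ((n₀ * k : ℕ) : ℤ) z₀) + η < δ)
    (h0 : ev f ((n₀ * k : ℕ) : ℤ) w₀ ∈ Sp f.symm s (ev f ((n₀ * k : ℕ) : ℤ) z₀)) (t : ℕ) :
    ∀ z w, Trk f E₁ h' k b m p n₀ t z z₀ → Trk f E₁ h' k b m p n₀ t w w₀ →
      ev f (((n₀ + t) * k : ℕ) : ℤ) z ∈ Sp f (∑ i ∈ Finset.range t, (L : ℝ) *
        (C * Real.exp (-(a * (((n₀ + i + 1) * k : ℕ) : ℝ))) * h')) (ev f ((n₀ * k : ℕ) : ℤ) z₀) ∧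
      ev f (((n₀ + t) * k : ℕ) : ℤ) w ∈ Sp f (∑ i ∈ Finset.range t, (L : ℝ) *
        (C * Real.exp (-(a * (((n₀ + i + 1) * k : ℕ) : ℝ))) * h')) (ev f ((n₀ * k : ℕ) : ℤ) w₀) ∧
      ev f (((n₀ + t) * k : ℕ) : ℤ) w ∈ Sp f.symm s (ev f (((n₀ + t) * k : ℕ) : ℤ) z) := by
  have hC := R.C1
  induction t with
  | zero =>
    rintro z w ⟨rfl, -⟩ ⟨rfl, -⟩
    simp only [Finset.range_zero, Finset.sum_empty, add_zero]
    exact ⟨Sp_self le_rfl _, Sp_self le_rfl _, h0⟩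
  | succ t ih =>
    rintro z w ⟨q, hq1, hq2, rfl⟩ ⟨r, hr1, hr2, rfl⟩
    obtain ⟨h4, h5, h6⟩ := ih _ _ hq1 hr1
    have e1 : ∀ x : X, ev f (((n₀ + t) * k : ℕ) : ℤ) (ev f k x) =
        ev f (((n₀ + t + 1) * k : ℕ) : ℤ) x := by
      intro x
      rw [← ev_add]
      congr 1
      push_cast
      ring
    rw [e1] at h4 h5 h6
    rw [e1] at h6
    set ρ : ℝ := C * Real.exp (-(a * (((n₀ + t + 1) * k : ℕ) : ℝ))) * h' with hρ
    have hρ0 : 0 ≤ ρ := by positivity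
    have hmL : ((m (n₀ + t) : ℕ) : ℝ) ≤ L := by exact_mod_cast hm _
    have h7 := hη (t + 1)
    rw [Finset.sum_range_succ] at h7
    have h8 : (∑ i ∈ Finset.range t, (L : ℝ) *
        (C * Real.exp (-(a * (((n₀ + i + 1) * k : ℕ) : ℝ))) * h')) + (m (n₀ + t) : ℕ) * ρ ≤
        (∑ i ∈ Finset.range t, (L : ℝ) *
        (C * Real.exp (-(a * (((n₀ + i + 1) * k : ℕ) : ℝ))) * h')) + L * ρ := by
      gcongr
    obtain ⟨h9, h10, h11⟩ := level R hbr h1 h2 h3 hh' hq2 hr2 (N := (n₀ + t + 1) * k)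
      (ρ := ρ) le_rfl hρ0 h4 h5 h6 hd (h8.trans h7) _ le_rfl
    rw [Finset.sum_range_succ]
    exact ⟨Sp_mono h8 h9, Sp_mono h8 h10, h11⟩

theorem specChn : SpecChn.{u} := by
  intro X _ _ f U S e C a c E₀ E₁ h' k L b R hc hk hE₀ hE₁ hh' hE₁0 hh'0 hb hch
  have he := R.e0
  have hC := R.C1
  have ha := R.a0
  choose m hm p hp using hch
  set s : ℝ := e / 8 with hs
  have hs0 : 0 < s := by positivity
  obtain ⟨δ, hδ, hbr⟩ := R.br s hs0
  set η : ℝ := min (δ / 2) (e / 8) with hη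
  have hη0 : 0 < η := by positivity
  have hηδ : η ≤ δ / 2 := min_le_left _ _
  have hηe : η ≤ e / 8 := min_le_right _ _
  set θ : ℝ := Real.exp (-(a * k)) with hθ
  have hk0 : (0 : ℝ) < k := by exact_mod_cast hk
  have hθ0 : 0 < θ := Real.exp_pos _
  have hθ1 : θ < 1 := by
    rw [hθ, Real.exp_lt_one_iff]
    have : 0 < a * k := by positivity
    linarith
  have hpow : ∀ j : ℕ, Real.exp (-(a * ((j * k : ℕ) : ℝ))) = θ ^ j := by
    intro j
    rw [hθ, ← Real.exp_nat_mul]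
    congr 1
    push_cast
    ring
  obtain ⟨n₀, hn₀⟩ : ∃ n₀ : ℕ, L * C * h' / (1 - θ) * θ ^ n₀ ≤ η := by
    have h1 := (tendsto_pow_atTop_nhds_zero_of_lt_one hθ0.le hθ1).const_mul
      (L * C * h' / (1 - θ))
    rw [mul_zero] at h1
    exact (h1.eventually_le_const hη0).exists
  have hsum : ∀ t : ℕ, ∑ i ∈ Finset.range t, (L : ℝ) *
      (C * Real.exp (-(a * (((n₀ + i + 1) * k : ℕ) : ℝ))) * h') ≤ η := by
    intro t
    have h2 : (∑ j ∈ Finset.range t, θ ^ j) ≤ 1 / (1 - θ) := by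
      have h2 := Summable.sum_le_tsum (f := fun j : ℕ => θ ^ j) (Finset.range t)
        (fun j _ => by positivity) (summable_geometric_of_lt_one hθ0.le hθ1)
      rw [tsum_geometric_of_lt_one hθ0.le hθ1] at h2
      rwa [one_div]
    calc ∑ i ∈ Finset.range t, (L : ℝ) *
          (C * Real.exp (-(a * (((n₀ + i + 1) * k : ℕ) : ℝ))) * h')
        ≤ ∑ i ∈ Finset.range t, (L * C * h' * θ ^ n₀) * θ ^ i := by
          refine Finset.sum_le_sum fun i _ => ?_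
          rw [hpow, pow_add, pow_add, pow_one]
          have h3 : 0 ≤ L * C * h' * θ ^ n₀ * θ ^ i := by positivity
          calc (L : ℝ) * (C * (θ ^ n₀ * θ ^ i * θ) * h') = L * C * h' * θ ^ n₀ * θ ^ i * θ := by
                ring
            _ ≤ L * C * h' * θ ^ n₀ * θ ^ i * 1 := by gcongr
            _ = _ := mul_one _
      _ = L * C * h' * θ ^ n₀ * ∑ j ∈ Finset.range t, θ ^ j := by rw [Finset.mul_sum]
      _ ≤ L * C * h' * θ ^ n₀ * (1 / (1 - θ)) := by gcongr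
      _ = L * C * h' / (1 - θ) * θ ^ n₀ := by ring
      _ ≤ η := hn₀
  -- closeness at the level `n₀`
  obtain ⟨δ₁, hδ₁, hu⟩ := unif_cont f (n₀ * k) (ε := min (δ / 2) (s / C)) (by positivity)
  have hclose : ∀ z₀ ∈ b n₀, ∀ w₀ ∈ b n₀, dist w₀ z₀ < δ₁ →
      dist (ev f ((n₀ * k : ℕ) : ℤ) w₀) (ev f ((n₀ * k : ℕ) : ℤ) z₀) + η < δ ∧
      ev f ((n₀ * k : ℕ) : ℤ) w₀ ∈ Sp f.symm s (ev f ((n₀ * k : ℕ) : ℤ) z₀) := by
    intro z₀ hz₀ w₀ hw₀ hd
    have hsC : s / C ≤ s := div_le_self hs0.le hC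
    constructor
    · have h1 := hu _ _ hd ((n₀ * k : ℕ) : ℤ) (by omega) le_rfl
      have h2 := h1.trans_le (min_le_left _ _)
      linarith
    · rw [mem_Sp_symm]
      intro j
      rw [← ev_add, ← ev_add]
      rcases le_or_gt (n₀ * k) j with hj | hj
      · obtain ⟨t, ht⟩ := Nat.exists_eq_add_of_le hj
        rw [show -(j : ℤ) + ((n₀ * k : ℕ) : ℤ) = -(t : ℤ) by omega]
        have h1 := R.un _ _ (Sp_mono (by linarith) ((hb n₀).sz z₀ hz₀ w₀ hw₀)) t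
        have h2 := hu _ _ hd 0 (by omega) (by omega)
        rw [ev_zero, ev_zero] at h2
        have h3 := h2.trans_le (min_le_right _ _)
        have h4 : Real.exp (-(a * t)) ≤ 1 := by
          rw [Real.exp_le_one_iff]
          have : 0 ≤ a * (t : ℝ) := by positivity
          linarith
        calc _ ≤ C * Real.exp (-(a * t)) * dist w₀ z₀ := h1
          _ ≤ C * 1 * (s / C) := by gcongr
          _ = s := by field_simp
      · have h1 := hu _ _ hd (-(j : ℤ) + ((n₀ * k : ℕ) : ℤ)) (by omega) (by omega)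
        exact (h1.trans_le ((min_le_right _ _).trans hsC)).le
  -- the pieces
  obtain ⟨T, -, hTf, hT⟩ := finite_cover_balls_of_compact (isCompact_univ (X := X))
    (half_pos hδ₁)
  set J : ℕ := hTf.toFinset.card + 1 with hJ
  have hJ0 : (0 : ℝ) < J := by rw [hJ]; positivity
  -- a large time
  obtain ⟨t, ht⟩ : ∃ t : ℕ, C * s * θ ^ (n₀ + t) < c / J := by
    have h1 := ((tendsto_pow_atTop_nhds_zero_of_lt_one hθ0.le hθ1).comp
      (tendsto_add_atTop_nat n₀)).const_mul (C * s)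
    rw [mul_zero] at h1
    obtain ⟨t, ht⟩ := (h1.eventually_lt_const (show (0 : ℝ) < c / J by positivity)).exists
    refine ⟨t, ?_⟩
    simpa [add_comm] using ht
  obtain ⟨x, hx, y, hy, hxy⟩ := (hb (n₀ + t)).big
  have hivt : ∀ i : ℕ, i ≤ J → ∃ v ∈ b (n₀ + t), dist x v = i * (c / J) := by
    intro i hi
    have h1 := (hb (n₀ + t)).conn.isPreconnected.intermediate_value hx hy
      (f := fun v => dist x v) (by fun_prop)
    have h2 : (i : ℝ) * (c / J) ∈ Icc (dist x x) (dist x y) := by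
      rw [dist_self]
      refine ⟨by positivity, le_trans ?_ hxy⟩
      have : (i : ℝ) ≤ J := by exact_mod_cast hi
      calc (i : ℝ) * (c / J) ≤ J * (c / J) := by gcongr
        _ = c := by field_simp
    obtain ⟨v, hv, hv'⟩ := h1 h2
    exact ⟨v, hv, hv'⟩
  have : Nonempty X := ⟨x⟩
  choose! v hv hvd using hivt
  have htrk : ∀ i : ℕ, ∃ z₀ : X, i ≤ J → z₀ ∈ b n₀ ∧ Trk f E₁ h' k b m p n₀ t (v i) z₀ := by
    intro i
    by_cases hi : i ≤ J
    · obtain ⟨z₀, h1, h2⟩ := exists_trk (n₀ := n₀) hp t (v i) (hv i hi)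
      exact ⟨z₀, fun _ => ⟨h1, h2⟩⟩
    · exact ⟨x, fun h => absurd h hi⟩
  choose z₀ hz₀ using htrk
  have hcen : ∀ i : ℕ, ∃ u ∈ hTf.toFinset, dist (z₀ i) u < δ₁ / 2 := by
    intro i
    have h1 := hT (mem_univ (z₀ i))
    simp only [mem_iUnion, Metric.mem_ball] at h1
    obtain ⟨u, hu1, hu2⟩ := h1
    exact ⟨u, hTf.mem_toFinset.2 hu1, hu2⟩
  choose g hg hgd using hcen
  obtain ⟨i, hi, j, hj, hij, hgij⟩ := Finset.exists_ne_map_eq_of_card_lt_of_maps_to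
    (s := Finset.range J) (t := hTf.toFinset) (f := g) (by rw [Finset.card_range]; omega)
    (fun i _ => hg i)
  rw [Finset.mem_range] at hi hj
  have hzd : dist (z₀ j) (z₀ i) < δ₁ := by
    have h1 := dist_triangle_right (z₀ j) (z₀ i) (g i)
    have h2 := hgd i
    have h3 := hgd j
    rw [← hgij] at h3
    linarith
  obtain ⟨hi1, hi2⟩ := hz₀ i hi.le
  obtain ⟨hj1, hj2⟩ := hz₀ j hj.le
  obtain ⟨h1, h2⟩ := hclose _ hi1 _ hj1 hzd
  obtain ⟨-, -, h3⟩ := trk_close R hbr (by linarith) (by linarith) (by linarith) (by linarith)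
    hh'0.le hm hsum h1 h2 t _ _ hi2 hj2
  have h4 := R.un _ _ (Sp_mono (by linarith) h3) ((n₀ + t) * k)
  rw [ev_neg_ev, ev_neg_ev, hpow] at h4
  have h5 : dist (v j) (v i) ≤ C * s * θ ^ (n₀ + t) := by
    have h6 := Sp_dist h3
    calc _ ≤ _ := h4
      _ ≤ C * θ ^ (n₀ + t) * s := by gcongr
      _ = _ := by ring
  have h6 : |(j : ℝ) - i| * (c / J) ≤ dist (v j) (v i) := by
    have h7 := abs_dist_sub_le (v j) (v i) x
    rw [dist_comm (v j) x, dist_comm (v i) x, hvd j hj.le, hvd i hi.le] at h7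
    rwa [← sub_mul, abs_mul, abs_of_pos (show (0 : ℝ) < c / J by positivity)] at h7
  have h7 : (1 : ℝ) ≤ |(j : ℝ) - i| := by
    have h8 : (1 : ℤ) ≤ |(j : ℤ) - i| := Int.one_le_abs (by omega)
    exact_mod_cast h8
  have h8 : c / J ≤ |(j : ℝ) - i| * (c / J) := le_mul_of_one_le_left (by positivity) h7
  linarith

end Pool.Agent.Lib.MP610fe3.TC
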