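import Pool.Agent.Lib.MP_610fe3_an.EQ.Ext

/-!
# Tame continua: definitions and statements of the modules

`S` is a closed set with `f⁻¹ S ⊆ S`, a union of local stable sets.  We look at continua `K ⊆ S`
contained in a local unstable set, and transport them along stable chains: a stable chain is a
sequence `p 0, ..., p m` with `p (i + 1)` in the local stable set of size `h` of `p i`, and a lift of
it is a sequence `q 0, ..., q m` with `q (i + 1)` in the local stable set of size `h'` of `q i` and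
`q i` in the local unstable set of size `E` of `p i`.
-/

open Set Filter Function
open scoped Topology

namespace Pool.Agent.Lib.MP610fe3.TC

open TM N3

universe u

/-- `q` is a lift of the stable chain `p 0, ..., p m`. -/
def Lift {X : Type*} [MetricSpace X] (f : X ≃ₜ X) (E h' : ℝ) (m : ℕ) (p q : ℕ → X) : Prop :=
  (∀ i ≤ m, q i ∈ Sp f.symm E (p i)) ∧ ∀ i < m, q (i + 1) ∈ Sp f h' (q i)

/-- The set `K` is not lost along stable chains of `m ≤ L` steps of size `h`. -/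
def Tm {X : Type*} [MetricSpace X] (f : X ≃ₜ X) (h E h' : ℝ) (L : ℕ) (K : Set X) : Prop :=
  ∀ m ≤ L, ∀ p : ℕ → X, p 0 ∈ K → (∀ i < m, p (i + 1) ∈ Sp f h (p i)) →
    ∀ y ∈ K, ∃ q : ℕ → X, q 0 = y ∧ Lift f E h' m p q

/-- The class of continua. -/
structure Cl {X : Type*} [MetricSpace X] (f : X ≃ₜ X) (S : Set X) (c E₀ : ℝ) (K : Set X) :
    Prop where
  cpt : IsCompact K
  conn : IsConnected K
  sub : K ⊆ S
  sz : ∀ x ∈ K, ∀ y ∈ K, y ∈ Sp f.symm E₀ x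
  big : ∃ x ∈ K, ∃ y ∈ K, c ≤ dist x y

/-- LIM (ultrafilter limit of the sets, see `TD/Lim.lean`: `Lst`, `sub_of_open`). -/
def SpecLim : Prop := ∀ (X : Type u) [MetricSpace X] [CompactSpace X] (f : X ≃ₜ X) (U S : Set X)
  (e C a c E₀ E₁ h₁ h₂ h' : ℝ) (k : ℕ), Rates f U e C a a a → IsClosed S → 0 < c →
  0 < h₂ → h₂ < h₁ → 4 * h₁ ≤ e → 4 * E₀ ≤ e → 4 * E₁ ≤ e → 4 * h' ≤ e →
  (∀ x y, dist x y < 2 * h₁ → ∃ z, z ∈ Sp f (e / 4) x ∧ z ∈ Sp f.symm (e / 4) y) →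
  (∀ L : ℕ, ∃ K, Cl f S c E₀ K ∧ Tm f h₁ E₁ h' L (ev f (-(k : ℤ)) '' K)) →
  ∃ K, Cl f S c E₀ K ∧ ∀ L : ℕ, Tm f h₂ E₁ h' L (ev f (-(k : ℤ)) '' K)

/-- STP: a small continuum `K` which is lost in `L` steps has an image of size at least `c`. -/
def SpecStp : Prop := ∀ (X : Type u) [MetricSpace X] [CompactSpace X] (f : X ≃ₜ X) (U S : Set X)
  (e C a c E₁ h₁ h' : ℝ) (L : ℕ) (K : Set X), Rates f U e C a a a →
  (∀ x ∈ S, ∀ y ∈ Sp f e x, y ∈ S) → 0 < c → 4 * h₁ ≤ e → 4 * E₁ ≤ e → 4 * h' ≤ e →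
  0 < E₁ → 0 < h' →
  (∀ x y, dist x y < c + 2 * h₁ → ∃ z, z ∈ Sp f h' x ∧ z ∈ Sp f.symm E₁ y) →
  IsCompact K → IsConnected K → K ⊆ S → (∀ x ∈ K, ∀ y ∈ K, y ∈ Sp f.symm E₁ x) →
  (∀ x ∈ K, ∀ y ∈ K, dist y x < c) → ¬ Tm f h₁ E₁ h' L K →
  ∃ K' : Set X, Cl f S c (2 * E₁) K' ∧ ∃ m ≤ L, ∃ p : ℕ → X, ∀ z ∈ K', ∃ q : ℕ → X,
    q 0 ∈ K ∧ Lift f E₁ h' m p q ∧ q m = z

/-- CHN: no infinite chain. -/
def SpecChn : Prop := ∀ (X : Type u) [MetricSpace X] [CompactSpace X] (f : X ≃ₜ X) (U S : Set X)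
  (e C a c E₀ E₁ h' : ℝ) (k L : ℕ) (b : ℕ → Set X), Rates f U e C a a a → 0 < c → 1 ≤ k →
  4 * E₀ ≤ e → 4 * E₁ ≤ e → 4 * h' ≤ e → 0 < E₁ → 0 < h' → (∀ n, Cl f S c E₀ (b n)) →
  (∀ n, ∃ m ≤ L, ∃ p : ℕ → X, ∀ z ∈ b (n + 1), ∃ q : ℕ → X,
    ev f k (q 0) ∈ b n ∧ Lift f E₁ h' m p q ∧ q m = z) → False

/-- ABS: the abstract theorem (assembly of the three modules). -/
def SpecAbs : Prop := ∀ (X : Type u) [MetricSpace X] [CompactSpace X] (f : X ≃ₜ X) (U : Set X)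
  (e C a E E₂ : ℝ), Rates f U e C a a a → 0 < E → 0 < E₂ → 8 * E₂ ≤ e → E₂ ≤ E →
  ∃ h : ℝ, 0 < h ∧ ∀ S K₀ : Set X, IsClosed S → (∀ x ∈ S, ev f (-1) x ∈ S) →
    (∀ x ∈ S, ∀ y ∈ Sp f e x, y ∈ S) → IsCompact K₀ → IsConnected K₀ → K₀ ⊆ S → K₀.Nontrivial →
    (∀ x ∈ K₀, ∀ y ∈ K₀, y ∈ Sp f.symm E₂ x) →
    ∃ K : Set X, IsCompact K ∧ IsConnected K ∧ K ⊆ S ∧ K.Nontrivial ∧
      (∀ x ∈ K, ∀ y ∈ K, y ∈ Sp f.symm E x) ∧ ∀ L : ℕ, Tm f h E E L K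

end Pool.Agent.Lib.MP610fe3.TC
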