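import Pool.Agent.Lib.MP_610fe3_an.TC.Spec

/-!
# Tame continua: one step of the construction
-/

open Set Filter Function
open scoped Topology

namespace Pool.Agent.Lib.MP610fe3.TC

open TM N3

universe u

namespace StpC

variable {X : Type u} [MetricSpace X] {f : X ≃ₜ X} {U S K : Set X} {e C a c E h h' : ℝ}

theorem lift_le {m i : ℕ} (hi : i ≤ m) {p q : ℕ → X} (h : Lift f E h' m p q) :
    Lift f E h' i p q :=
  ⟨fun j hj => h.1 j (hj.trans hi), fun j hj => h.2 j (hj.trans_le hi)⟩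

/-- Lifts are unique. -/
theorem lift_unique (R : Rates f U e C a a a) (hE : 4 * E ≤ e) (hh : 4 * h' ≤ e) {m : ℕ}
    {p q q' : ℕ → X} (h : Lift f E h' m p q) (h1 : Lift f E h' m p q') (h0 : q 0 = q' 0) :
    ∀ i ≤ m, q i = q' i := by
  have he := R.e0
  intro i
  induction i with
  | zero => exact fun _ => h0
  | succ i ih =>
    intro hi
    have h2 := ih (by omega)
    have h3 := h.2 i (by omega)
    have h4 := h1.2 i (by omega)
    rw [← h2] at h4
    exact EQ.uni R (Sp_mono (ε := h' + h') (by linarith) (Sp_trans (Sp_comm h4) h3))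
      (Sp_mono (ε := E + E) (by linarith) (Sp_trans (Sp_comm (h1.1 _ hi)) (h.1 _ hi)))

/-- A stable chain is its own lift. -/
theorem lift_self (R : Rates f U e C a a a) (hE : 4 * E ≤ e) (hh : 4 * h' ≤ e) (hh' : 4 * h ≤ e)
    {m : ℕ} {p q : ℕ → X} (hp : ∀ i < m, p (i + 1) ∈ Sp f h (p i)) (hl : Lift f E h' m p q)
    (h0 : q 0 = p 0) : ∀ i ≤ m, q i = p i := by
  have he := R.e0
  intro i
  induction i with
  | zero => exact fun _ => h0
  | succ i ih =>
    intro hi
    have h2 := ih (by omega)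
    have h3 := hl.2 i (by omega)
    have h4 := hp i (by omega)
    rw [h2] at h3
    exact EQ.uni R (Sp_mono (ε := h + h') (by linarith) (Sp_trans (Sp_comm h4) h3))
      (Sp_mono (by linarith) (hl.1 _ hi))

theorem lift_extend {m : ℕ} {p q : ℕ → X} (hl : Lift f E h' m p q) {z : X}
    (hz : z ∈ Sp f h' (q m)) (hz' : z ∈ Sp f.symm E (p (m + 1))) :
    ∃ q' : ℕ → X, q' 0 = q 0 ∧ Lift f E h' (m + 1) p q' := by
  refine ⟨fun i => if i ≤ m then q i else z, by simp, fun i hi => ?_, fun i hi => ?_⟩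
  · by_cases h1 : i ≤ m
    · simp only [h1, if_true]
      exact hl.1 i h1
    · have h2 : i = m + 1 := by omega
      subst h2
      simp only [h1, if_false]
      exact hz'
  · by_cases h1 : i + 1 ≤ m
    · have h2 : i ≤ m := by omega
      simp only [h1, h2, if_true]
      exact hl.2 i (by omega)
    · have h2 : i = m := by omega
      subst h2
      simp only [le_refl, if_true, h1, if_false]
      exact hz

/-- As long as the ends of the lifts are close to the chain, all points have lifts. -/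
theorem exists_lift {m : ℕ} {p : ℕ → X}
    (hbr : ∀ x y, dist x y < c + 2 * h → ∃ z, z ∈ Sp f h' x ∧ z ∈ Sp f.symm E y)
    (hsz : ∀ x ∈ K, ∀ y ∈ K, y ∈ Sp f.symm E x) (hp0 : p 0 ∈ K)
    (hp : ∀ i < m, p (i + 1) ∈ Sp f h (p i))
    (hG : ∀ i < m, ∀ q : ℕ → X, q 0 ∈ K → Lift f E h' i p q → dist (q i) (p i) < c) :
    ∀ y ∈ K, ∃ q : ℕ → X, q 0 = y ∧ Lift f E h' m p q := by
  have key : ∀ i ≤ m, ∀ y ∈ K, ∃ q : ℕ → X, q 0 = y ∧ Lift f E h' i p q := by
    intro i
    induction i with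
    | zero =>
      intro _ y hy
      refine ⟨fun _ => y, rfl, fun i hi => ?_, fun i hi => absurd hi (Nat.not_lt_zero i)⟩
      rw [Nat.le_zero.1 hi]
      exact hsz _ hp0 _ hy
    | succ i ih =>
      intro hi y hy
      obtain ⟨q, hq0, hq⟩ := ih (by omega) y hy
      have h1 := hG i (by omega) q (by rwa [hq0]) hq
      have h2 := Sp_dist (hp i (by omega))
      have h3 := dist_triangle (q i) (p i) (p (i + 1))
      have h4 : 0 ≤ dist (p (i + 1)) (p i) := dist_nonneg
      rw [dist_comm (p i) (p (i + 1))] at h3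
      obtain ⟨z, hz, hz'⟩ := hbr (q i) (p (i + 1)) (by linarith)
      obtain ⟨q', hq'0, hq'⟩ := lift_extend hq hz hz'
      exact ⟨q', hq'0.trans hq0, hq'⟩
  exact key m le_rfl

/-- The map sending a point to the end of its lift is continuous. -/
theorem contOn_lift [CompactSpace X] (R : Rates f U e C a a a) (hE : 4 * E ≤ e)
    (hh : 4 * h' ≤ e) {m : ℕ} {p : ℕ → X} {Q : X → ℕ → X} (hQ0 : ∀ y ∈ K, Q y 0 = y)
    (hQ : ∀ y ∈ K, Lift f E h' m p (Q y)) : ContinuousOn (fun y => Q y m) K := by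
  intro y hy
  refine (tendsto_iff_ultrafilter _ _ _).2 fun g hg => ?_
  obtain ⟨hg1, hg2⟩ := le_inf_iff.1 hg
  have hgK : ∀ᶠ x in (g : Filter X), x ∈ K := hg2 (mem_principal_self K)
  have hex : ∀ j, ∃ z, Tendsto (fun x => Q x j) g (𝓝 z) := by
    intro j
    have h4 := isCompact_univ.ultrafilter_le_nhds (g.map fun x => Q x j) (by simp)
    obtain ⟨z, -, hz⟩ := h4
    exact ⟨z, hz⟩
  choose q hq using hex
  have h0 : q 0 = y := by
    refine tendsto_nhds_unique (hq 0) ?_
    have h1 : Tendsto (fun x : X => x) g (𝓝 y) := hg1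
    refine h1.congr' ?_
    filter_upwards [hgK] with x hx
    exact (hQ0 x hx).symm
  have hl : Lift f E h' m p q := by
    refine ⟨fun i hi => ?_, fun i hi => ?_⟩
    · exact (isClosed_rel f.symm E).mem_of_tendsto ((tendsto_const_nhds (x := p i)).prodMk_nhds
        (hq i)) (hgK.mono fun x hx => (hQ x hx).1 i hi)
    · exact (isClosed_rel f h').mem_of_tendsto ((hq i).prodMk_nhds (hq (i + 1)))
        (hgK.mono fun x hx => (hQ x hx).2 i hi)
  have h2 := lift_unique R hE hh hl (hQ y hy) (h0.trans (hQ0 y hy).symm) m le_rfl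
  have h3 := hq m
  rw [h2] at h3
  exact h3

end StpC

open StpC in
/-- STP. -/
theorem specStp : SpecStp.{u} := by
  classical
  intro X _ _ f U S e C a c E₁ h₁ h' L K R hS hc h1e hE1 hh' hE0 hh0 hbr hKc hKn hKS hsz hsm hnT
  have he := R.e0
  unfold Tm at hnT
  push Not at hnT
  obtain ⟨m, hm, p, hp0, hp, y₀, hy₀, hno⟩ := hnT
  -- the first index where the image of `K` is large
  have hex : ∃ i, i < m ∧ ∃ q : ℕ → X, q 0 ∈ K ∧ Lift f E₁ h' i p q ∧ c ≤ dist (q i) (p i) := by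
    by_contra hnot
    push Not at hnot
    obtain ⟨q, hq0, hq⟩ := exists_lift hbr hsz hp0 hp hnot y₀ hy₀
    exact hno q hq0 hq
  obtain ⟨him, q₁, hq₁0, hq₁, hd⟩ := Nat.find_spec hex
  have hmin := fun {j : ℕ} (hj : j < Nat.find hex) => Nat.find_min hex hj
  set i := Nat.find hex with hi
  have hG : ∀ j < i, ∀ q : ℕ → X, q 0 ∈ K → Lift f E₁ h' j p q → dist (q j) (p j) < c := by
    intro j hj q h1 h2
    by_contra h3
    exact hmin hj ⟨hj.trans him, q, h1, h2, not_lt.1 h3⟩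
  have hB := exists_lift hbr hsz hp0 (fun j hj => hp j (hj.trans him)) hG
  have hB' : ∀ y, ∃ q : ℕ → X, y ∈ K → q 0 = y ∧ Lift f E₁ h' i p q := by
    intro y
    by_cases hy : y ∈ K
    · obtain ⟨q, hq⟩ := hB y hy
      exact ⟨q, fun _ => hq⟩
    · exact ⟨fun _ => y, fun h => absurd h hy⟩
  choose Q hQ using hB'
  have hcont : ContinuousOn (fun y => Q y i) K :=
    contOn_lift R hE1 hh' (fun y hy => (hQ y hy).1) fun y hy => (hQ y hy).2
  refine ⟨(fun y => Q y i) '' K, ⟨hKc.image_of_continuousOn hcont, hKn.image _ hcont, ?_, ?_, ?_⟩,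
    i, him.le.trans hm, p, ?_⟩
  · rintro _ ⟨y, hy, rfl⟩
    have key : ∀ j ≤ i, Q y j ∈ S := by
      intro j
      induction j with
      | zero =>
        intro _
        rw [(hQ y hy).1]
        exact hKS hy
      | succ j ih =>
        intro hj
        exact hS _ (ih (by omega)) _ (Sp_mono (by linarith) ((hQ y hy).2.2 j (by omega)))
    exact key i le_rfl
  · rintro _ ⟨x, hx, rfl⟩ _ ⟨y, hy, rfl⟩
    refine Sp_mono (ε := E₁ + E₁) (by linarith) ?_
    exact Sp_trans (Sp_comm ((hQ x hx).2.1 i le_rfl)) ((hQ y hy).2.1 i le_rfl)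
  · refine ⟨Q (q₁ 0) i, ⟨q₁ 0, hq₁0, rfl⟩, Q (p 0) i, ⟨p 0, hp0, rfl⟩, ?_⟩
    rw [lift_unique R hE1 hh' (hQ _ hq₁0).2 hq₁ (hQ _ hq₁0).1 i le_rfl,
      lift_self R hE1 hh' h1e (fun j hj => hp j (hj.trans him)) (hQ _ hp0).2 (hQ _ hp0).1 i le_rfl]
    exact hd
  · rintro _ ⟨y, hy, rfl⟩
    exact ⟨Q y, by rw [(hQ y hy).1]; exact hy, (hQ y hy).2, rfl⟩

end Pool.Agent.Lib.MP610fe3.TC
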